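import Mathlib

/-! # Skew products with cocycles of convergence groups are null relative to their base -/

set_option autoImplicit false
set_option linter.unusedSectionVars false

namespace Pool.Agent.K3h58.LC

open Finset Filter Topology

/-- The action of `G` on the compact metric space `Z` is a convergence action: outside of a compact subset of `G`, each
element maps the complement of some ball of radius `ε` into a ball of radius `ε`. -/
def Convergence (G Z : Type) [TopologicalSpace G] [SMul G Z] [MetricSpace Z] : Prop :=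
  ∀ ε : ℝ, 0 < ε → ∃ K : Set G, IsCompact K ∧ ∀ g ∉ K, ∃ a r : Z, ∀ z, ε ≤ dist z r → dist (g • z) a < ε

/-- the skew product `T(y, z) = (S y, φ(y) z)` -/
def ext {Y G Z : Type} [SMul G Z] (S : Y → Y) (φ : Y → G) (x : Y × Z) : Y × Z := (S x.1, φ x.1 • x.2)

section

variable {Y G Z : Type} [TopologicalSpace Y] [CompactSpace Y] [T2Space Y] [MetricSpace Z] [CompactSpace Z]
  [Group G] [TopologicalSpace G] [MulAction G Z] [ContinuousSMul G Z]

lemma iter_ext (S : Y → Y) (φ : Y → G) (y : Y) (m : ℕ) :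
    ∃ g : G, ∀ z : Z, (ext S φ)^[m] (y, z) = (S^[m] y, g • z) := by
  induction m with
  | zero => exact ⟨1, fun z => by simp⟩
  | succ m ih =>
    obtain ⟨g, hg⟩ := ih
    refine ⟨φ (S^[m] y) * g, fun z => ?_⟩
    rw [Function.iterate_succ_apply', hg, Function.iterate_succ_apply']
    unfold ext
    simp only [mul_smul]

/-- a compact set of continuous maps is divided into finitely many cells of small diameter -/
lemma cells {W α : Type} [MetricSpace W] (f : α → W) {K : Set α} (hK : IsCompact (f '' K)) {δ : ℝ} (hδ : 0 < δ) :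
    ∃ (n : ℕ) (c : α → Fin (n + 1)), ∀ a ∈ K, ∀ b ∈ K, c a = c b → dist (f a) (f b) < δ := by
  classical
  obtain ⟨t, ht, hc⟩ := Metric.totallyBounded_iff.1 hK.totallyBounded (δ / 2) (by positivity)
  set n := ht.toFinset.card with hn
  have key : ∀ a ∈ K, ∃ w : ht.toFinset, dist (f a) w < δ / 2 := by
    intro a ha
    have h1 := hc (Set.mem_image_of_mem f ha)
    rw [Set.mem_iUnion₂] at h1
    obtain ⟨w, hw, h2⟩ := h1
    exact ⟨⟨w, ht.mem_toFinset.2 hw⟩, h2⟩
  choose w hw using key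
  by_cases hne : K.Nonempty
  · obtain ⟨a₀, ha₀⟩ := hne
    have hn0 : 0 < n := by
      rw [hn, card_pos]
      exact ⟨_, (w a₀ ha₀).2⟩
    refine ⟨n, fun a => if h : a ∈ K then Fin.castSucc (ht.toFinset.equivFin (w a h)) else 0,
      fun a ha b hb hab => ?_⟩
    simp only [ha, hb, dif_pos] at hab
    have h1 : w a ha = w b hb := ht.toFinset.equivFin.injective (Fin.castSucc_injective _ hab)
    have h2 := hw a ha
    have h3 := hw b hb
    rw [← h1] at h3
    calc dist (f a) (f b) ≤ dist (f a) (w a ha) + dist (f b) (w a ha) := dist_triangle_right _ _ _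
      _ < δ := by linarith
  · exact ⟨0, fun _ => 0, fun a ha => absurd ⟨a, ha⟩ hne⟩

/-- **Skew products with cocycles of a convergence group are null relative to their base.** -/
theorem null_conv (hG : Convergence G Z) (S : Y → Y) (φ : Y → G) {A B : Set (Y × Z)} (hA : IsClosed A)
    (hB : IsClosed B) (hAB : Disjoint A B) : ∃ d : ℕ, ∀ (y : Y) (m : Fin d → ℕ), ∃ τ : Fin d → Bool,
      ∀ x, x.1 = y → ∃ i, (ext S φ)^[m i] x ∉ (if τ i then A else B) := by
  classical
  obtain ⟨c, hc0, hc1, -⟩ := exists_continuous_zero_one_of_isClosed hA hB hAB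
  -- uniform continuity in the fibre
  have hcur : Continuous fun y : Y => (c.curry y : C(Z, ℝ)) := c.curry.continuous
  obtain ⟨n₁, c₁, hc₁⟩ := cells (fun y : Y => (c.curry y : C(Z, ℝ))) (K := Set.univ)
    (isCompact_univ.image hcur) (show (0 : ℝ) < 1 / 4 by norm_num)
  have hδ : ∃ δ : ℝ, 0 < δ ∧ ∀ y : Y, ∀ z z' : Z, dist z z' < δ → |c (y, z) - c (y, z')| < 1 / 4 := by
    have hswap : Continuous fun p : Z × Y => c (p.2, p.1) :=
      c.continuous.comp (continuous_snd.prodMk continuous_fst)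
    have hcur2 : Continuous fun z : Z => ((ContinuousMap.curry ⟨fun p : Z × Y => c (p.2, p.1), hswap⟩) z : C(Y, ℝ)) :=
      (ContinuousMap.curry ⟨fun p : Z × Y => c (p.2, p.1), hswap⟩).continuous
    have huc := CompactSpace.uniformContinuous_of_continuous hcur2
    rw [Metric.uniformContinuous_iff] at huc
    obtain ⟨δ, hδ, h1⟩ := huc (1 / 4) (by norm_num)
    refine ⟨δ, hδ, fun y z z' hz => ?_⟩
    have h2 := (ContinuousMap.dist_apply_le_dist y).trans_lt (h1 hz)
    rwa [Real.dist_eq] at h2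
  obtain ⟨δ, hδ, hδc⟩ := hδ
  have sepY : ∀ y y' : Y, c₁ y = c₁ y' → ∀ z z' : Z, dist z z' < δ → (y, z) ∈ A → (y', z') ∉ B := by
    intro y y' hy z z' hz h1 h2
    have e1 : c (y, z) = 0 := hc0 h1
    have e2 : c (y', z') = 1 := hc1 h2
    have h3 := (ContinuousMap.dist_apply_le_dist z').trans_lt (hc₁ y (Set.mem_univ _) y' (Set.mem_univ _) hy)
    have h4 : |c (y, z') - c (y', z')| < 1 / 4 := by
      rwa [Real.dist_eq] at h3
    have h5 := hδc y z z' hz
    rw [e1] at h5
    rw [e2] at h4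
    rw [abs_lt] at h4 h5
    linarith
  obtain ⟨K, hK, hKc⟩ := hG (δ / 2) (by positivity)
  -- the elements of `K` as continuous maps
  let ψ : C(G, C(Z, Z)) := ContinuousMap.curry ⟨fun p : G × Z => p.1 • p.2, continuous_smul⟩
  obtain ⟨n₂, c₂, hc₂⟩ := cells (fun g : G => (ψ g : C(Z, Z))) (K := K) (hK.image ψ.continuous) hδ
  set d := (n₁ + 1) * (n₂ + 1) + 2 with hd
  refine ⟨d, fun y m => ?_⟩
  by_contra hcon
  push Not at hcon
  choose g hg using fun i => iter_ext (Z := Z) S φ y (m i)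
  -- all patterns are realised by points of the fibre
  have hpat : ∀ τ : Fin d → Bool, ∃ z : Z, ∀ i, (τ i = true → (S^[m i] y, g i • z) ∈ A) ∧
      (τ i = false → (S^[m i] y, g i • z) ∈ B) := by
    intro τ
    obtain ⟨⟨y', z⟩, hy, h1⟩ := hcon τ
    have hy' : y' = y := hy
    subst hy'
    refine ⟨z, fun i => ?_⟩
    have h2 := h1 i
    rw [hg i z] at h2
    refine ⟨fun h => ?_, fun h => ?_⟩
    · rw [h] at h2
      simpa using h2
    · rw [h] at h2
      simpa using h2
  have hd0 : 0 < d := by omega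
  set i₀ : Fin d := ⟨0, hd0⟩ with hi₀
  -- pairs
  have hpair : ∀ i j : Fin d, i ≠ j → ∀ s t : Bool, ∃ z : Z,
      ((s = true → (S^[m i] y, g i • z) ∈ A) ∧ (s = false → (S^[m i] y, g i • z) ∈ B)) ∧
      ((t = true → (S^[m j] y, g j • z) ∈ A) ∧ (t = false → (S^[m j] y, g j • z) ∈ B)) := by
    intro i j hij s t
    obtain ⟨z, hz⟩ := hpat fun l => if l = i then s else t
    refine ⟨z, ?_, ?_⟩
    · have := hz i
      simpa using this
    · have := hz j
      simpa [hij.symm] using this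
  have hmem : ∀ j : Fin d, j ≠ i₀ → g j * (g i₀)⁻¹ ∈ K := by
    intro j hj
    by_contra hnot
    obtain ⟨a, r, har⟩ := hKc _ hnot
    have hh : ∀ z : Z, (g j * (g i₀)⁻¹) • (g i₀ • z) = g j • z := fun z => by
      rw [smul_smul, inv_mul_cancel_right]
    -- one of the two sets avoids the ball around `r`
    have hcase : (∀ z, (S^[m i₀] y, g i₀ • z) ∈ A → δ / 2 ≤ dist (g i₀ • z) r) ∨
        (∀ z, (S^[m i₀] y, g i₀ • z) ∈ B → δ / 2 ≤ dist (g i₀ • z) r) := by
      by_contra hno
      push Not at hno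
      obtain ⟨⟨z, hz, hz1⟩, z', hz', hz1'⟩ := hno
      refine sepY _ _ rfl (g i₀ • z) (g i₀ • z') ?_ hz hz'
      calc dist (g i₀ • z) (g i₀ • z') ≤ dist (g i₀ • z) r + dist (g i₀ • z') r := dist_triangle_right _ _ _
        _ < δ := by linarith
    rcases hcase with h1 | h1
    · obtain ⟨z, ⟨hz1, -⟩, hz2, -⟩ := hpair i₀ j hj.symm true true
      obtain ⟨z', ⟨hz1', -⟩, -, hz2'⟩ := hpair i₀ j hj.symm true false
      have e1 := har _ (h1 z (hz1 rfl))
      have e2 := har _ (h1 z' (hz1' rfl))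
      rw [hh] at e1 e2
      refine sepY _ _ rfl (g j • z) (g j • z') ?_ (hz2 rfl) (hz2' rfl)
      calc dist (g j • z) (g j • z') ≤ dist (g j • z) a + dist (g j • z') a := dist_triangle_right _ _ _
        _ < δ := by linarith
    · obtain ⟨z, ⟨-, hz1⟩, hz2, -⟩ := hpair i₀ j hj.symm false true
      obtain ⟨z', ⟨-, hz1'⟩, -, hz2'⟩ := hpair i₀ j hj.symm false false
      have e1 := har _ (h1 z (hz1 rfl))
      have e2 := har _ (h1 z' (hz1' rfl))
      rw [hh] at e1 e2
      refine sepY _ _ rfl (g j • z) (g j • z') ?_ (hz2 rfl) (hz2' rfl)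
      calc dist (g j • z) (g j • z') ≤ dist (g j • z) a + dist (g j • z') a := dist_triangle_right _ _ _
        _ < δ := by linarith
  -- two indices in the same cell
  have hcard : Fintype.card (Fin (n₁ + 1) × Fin (n₂ + 1)) < Fintype.card {j : Fin d // j ≠ i₀} := by
    rw [Fintype.card_prod, Fintype.card_fin, Fintype.card_fin, Fintype.card_subtype_compl,
      Fintype.card_fin, Fintype.card_subtype_eq]
    omega
  obtain ⟨⟨i, hi⟩, ⟨j, hj⟩, hij, hcell⟩ := Fintype.exists_ne_map_eq_of_card_lt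
    (fun j : {j : Fin d // j ≠ i₀} => (c₁ (S^[m j] y), c₂ (g j * (g i₀)⁻¹))) hcard
  have hij' : i ≠ j := fun h => hij (Subtype.ext h)
  simp only [Prod.mk.injEq] at hcell
  obtain ⟨hcell1, hcell2⟩ := hcell
  obtain ⟨z, ⟨hz1, -⟩, -, hz2⟩ := hpair i j hij' true false
  have h1 := (ContinuousMap.dist_apply_le_dist (g i₀ • z)).trans_lt (hc₂ _ (hmem i hi) _ (hmem j hj) hcell2)
  have h2 : dist (g i • z) (g j • z) < δ := by
    have e1 : (ψ (g i * (g i₀)⁻¹)) (g i₀ • z) = g i • z := by
      show (g i * (g i₀)⁻¹) • (g i₀ • z) = g i • z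
      rw [smul_smul, inv_mul_cancel_right]
    have e2 : (ψ (g j * (g i₀)⁻¹)) (g i₀ • z) = g j • z := by
      show (g j * (g i₀)⁻¹) • (g i₀ • z) = g j • z
      rw [smul_smul, inv_mul_cancel_right]
    rw [e1, e2] at h1
    exact h1
  exact sepY _ _ hcell1 _ _ h2 (hz1 rfl) (hz2 rfl)

end

end Pool.Agent.K3h58.LC
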