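import Mathlib

/-! # Sign patterns of finitely many functions from a finite-dimensional space -/

set_option autoImplicit false

namespace Pool.Agent.K3h58.LC

open Finset Filter Topology

/-- A linear dependence between the evaluations at `N + 1` points excludes one of the sign patterns on them. -/
theorem no_pattern {Z : Type} (W : Submodule ℝ (Z → ℝ)) [FiniteDimensional ℝ W] {n : ℕ}
    (hn : Module.finrank ℝ W < n) (z : Fin n → Z) (w : (Finset (Fin n)) → (Z → ℝ)) (hw : ∀ J, w J ∈ W) :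
    ¬ ∀ J j, j ∈ J ↔ 0 < w J (z j) := by
  intro h
  set ev : Fin n → (W →ₗ[ℝ] ℝ) := fun j => (LinearMap.proj (z j)).comp W.subtype with hev
  have hdim : Module.finrank ℝ (W →ₗ[ℝ] ℝ) < n := by
    have := Subspace.dual_finrank_eq (K := ℝ) (V := W)
    unfold Module.Dual at this
    omega
  have hdep : ¬ LinearIndependent ℝ ev := by
    intro hli
    have := hli.fintype_card_le_finrank
    rw [Fintype.card_fin] at this
    omega
  rw [Fintype.not_linearIndependent_iff] at hdep
  obtain ⟨c, hc, j₀, hj₀⟩ := hdep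
  have hc1 : ∀ f ∈ W, ∑ i, c i * f (z i) = 0 := by
    intro f hf
    have h2 := LinearMap.congr_fun hc (⟨f, hf⟩ : W)
    simpa [LinearMap.sum_apply, hev] using h2
  -- we may assume that some coefficient is positive
  have key : ∀ c : Fin n → ℝ, (∀ f ∈ W, ∑ i, c i * f (z i) = 0) → ∀ j, ¬ 0 < c j := by
    intro c hc j hj
    set J : Finset (Fin n) := univ.filter fun i => 0 < c i with hJ
    have h1 : ∑ i, c i * w J (z i) = 0 := hc _ (hw J)
    have h2 : 0 < ∑ i, c i * w J (z i) := by
      refine sum_pos' (fun i _ => ?_) ⟨j, mem_univ _, ?_⟩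
      · by_cases hi : 0 < c i
        · exact (mul_pos hi ((h J i).1 (by simp [hJ, hi]))).le
        · have h3 : w J (z i) ≤ 0 := by
            by_contra hcon
            push Not at hcon
            have := (h J i).2 hcon
            simp only [hJ, mem_filter, mem_univ, true_and] at this
            exact hi this
          push Not at hi
          nlinarith
      · exact mul_pos hj ((h J j).1 (by simp [hJ, hj]))
    linarith
  rcases lt_trichotomy (c j₀) 0 with h1 | h1 | h1
  · refine key (fun i => - c i) (fun f hf => ?_) j₀ (by simpa using h1)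
    have h2 : ∑ i, (- c i) * f (z i) = - ∑ i, c i * f (z i) := by
      rw [← Finset.sum_neg_distrib]
      exact sum_congr rfl fun i _ => neg_mul _ _
    rw [h2, hc1 f hf, neg_zero]
  · exact hj₀ h1
  · exact key c hc1 j₀ h1

open Classical in
/-- the sets of indices at which the functions `w i` are positive, at the points of `Z` -/
noncomputable def pats {Z : Type} {d : ℕ} (w : Fin d → Z → ℝ) : Finset (Finset (Fin d)) :=
  univ.filter fun s => ∃ z, ∀ i, i ∈ s ↔ 0 < w i z

lemma mem_pats {Z : Type} {d : ℕ} (w : Fin d → Z → ℝ) (z : Z) [DecidablePred fun i => 0 < w i z] :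
    (univ.filter fun i => 0 < w i z) ∈ pats w := by
  classical
  unfold pats
  rw [mem_filter]
  exact ⟨mem_univ _, z, fun i => by simp⟩

theorem vc_lt {Z : Type} (W : Submodule ℝ (Z → ℝ)) [FiniteDimensional ℝ W] {d : ℕ} (w : Fin d → Z → ℝ)
    (hw : ∀ i, w i ∈ W) : (pats w).vcDim < 2 ^ (Module.finrank ℝ W + 1) := by
  classical
  set n := Module.finrank ℝ W + 1 with hn
  unfold Finset.vcDim
  rw [Finset.sup_lt_iff (by positivity)]
  intro s hs
  rw [mem_shatterer] at hs
  by_contra hcon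
  push Not at hcon
  obtain ⟨s', hs', hcard⟩ := exists_subset_card_eq hcon
  have hsh : (pats w).Shatters s' := hs.mono_right hs'
  have hcard2 : Fintype.card s' = Fintype.card (Finset (Fin n)) := by
    rw [Fintype.card_coe, hcard, Fintype.card_finset, Fintype.card_fin]
  set φ : s' ≃ Finset (Fin n) := Fintype.equivOfCardEq hcard2 with hφ
  have h1 : ∀ j : Fin n, ∃ z : Z, ∀ i : s', j ∈ φ i ↔ 0 < w i z := by
    intro j
    obtain ⟨u, hu, hu2⟩ := hsh (t := s'.filter fun i => ∃ h : i ∈ s', j ∈ φ ⟨i, h⟩) (filter_subset _ _)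
    unfold pats at hu
    rw [mem_filter] at hu
    obtain ⟨-, z, hz⟩ := hu
    refine ⟨z, fun i => ?_⟩
    rw [← hz]
    have h2 := Finset.ext_iff.1 hu2 (i : Fin d)
    rw [mem_inter, mem_filter] at h2
    constructor
    · intro h3
      exact (h2.2 ⟨i.2, i.2, h3⟩).2
    · intro h3
      obtain ⟨_, h5, h4⟩ := h2.1 ⟨i.2, h3⟩
      exact h4
  choose z hz using h1
  refine no_pattern W (n := n) (by omega) z (fun J => w (φ.symm J)) (fun J => hw _) fun J j => ?_
  have := hz j (φ.symm J)
  rwa [Equiv.apply_symm_apply] at this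

theorem card_pats {Z : Type} (W : Submodule ℝ (Z → ℝ)) [FiniteDimensional ℝ W] {d : ℕ} (w : Fin d → Z → ℝ)
    (hw : ∀ i, w i ∈ W) : (pats w).card ≤
      (2 ^ (Module.finrank ℝ W + 1)) * (d + 1) ^ (2 ^ (Module.finrank ℝ W + 1)) := by
  classical
  set K := 2 ^ (Module.finrank ℝ W + 1) with hK
  have h1 := (pats w).card_le_card_shatterer.trans card_shatterer_le_sum_vcDim
  rw [Fintype.card_fin] at h1
  refine h1.trans ?_
  have hv := vc_lt W w hw
  have h2 : ∀ k ∈ Iic (pats w).vcDim, d.choose k ≤ (d + 1) ^ K := by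
    intro k hk
    rw [mem_Iic] at hk
    calc d.choose k ≤ d ^ k := Nat.choose_le_pow d k
      _ ≤ (d + 1) ^ k := Nat.pow_le_pow_left (Nat.le_succ d) k
      _ ≤ (d + 1) ^ K := Nat.pow_le_pow_right (Nat.succ_pos d) (by omega)
  refine (sum_le_card_nsmul _ _ _ h2).trans ?_
  rw [smul_eq_mul]
  refine Nat.mul_le_mul_right _ ?_
  rw [Nat.card_Iic]
  omega

lemma poly_lt_exp (C K : ℕ) : ∃ d : ℕ, C * (d + 1) ^ K < 2 ^ d := by
  have h1 := tendsto_pow_const_mul_const_pow_of_abs_lt_one K (show |(1 / 2 : ℝ)| < 1 by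
    rw [abs_of_pos (by norm_num)]
    norm_num)
  have h2 : ∀ᶠ n : ℕ in atTop, (n : ℝ) ^ K * (1 / 2) ^ n < 1 / ((C + 1) * 2) :=
    h1.eventually_lt_const (by positivity)
  obtain ⟨n, hn, hn1⟩ := (h2.and (eventually_ge_atTop 1)).exists
  obtain ⟨d, rfl⟩ : ∃ d, n = d + 1 := ⟨n - 1, by omega⟩
  refine ⟨d, ?_⟩
  rw [one_div_pow, mul_one_div, div_lt_div_iff₀ (by positivity) (by positivity), one_mul, pow_succ 2 d] at hn
  have h3 : (C + 1 : ℝ) * ((d + 1 : ℕ) : ℝ) ^ K < 2 ^ d := by
    have h4 : ((d + 1 : ℕ) : ℝ) ^ K * ((C + 1) * 2) = ((C + 1 : ℝ) * ((d + 1 : ℕ) : ℝ) ^ K) * 2 := by ring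
    rw [h4] at hn
    linarith
  have h4 : (C + 1) * (d + 1) ^ K < 2 ^ d := by exact_mod_cast h3
  have h5 : C * (d + 1) ^ K ≤ (C + 1) * (d + 1) ^ K := Nat.mul_le_mul_right _ (Nat.le_succ C)
  omega

end Pool.Agent.K3h58.LC
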