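import Pool.Agent.K3h58.LC.Dual

/-! # Extensions whose fibres embed in the rays of a finite-dimensional space, with linear fibre maps -/

set_option autoImplicit false
set_option linter.unusedSectionVars false

namespace Pool.Agent.K3h58.LC

open Finset Filter Topology

section pol

variable (V : Type) [NormedAddCommGroup V] [InnerProductSpace ℝ V] [FiniteDimensional ℝ V]

/-- the linear functionals, as functions -/
noncomputable def Lin : Submodule ℝ (V → ℝ) := LinearMap.range (LinearMap.ltoFun ℝ V ℝ ℝ)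

variable {V}

lemma mem_Lin (f : V →ₗ[ℝ] ℝ) : (fun v => f v) ∈ Lin V := ⟨f, rfl⟩

lemma fg_pow (n : ℕ) : ((Lin V) ^ n).FG := by
  have h1 : (Lin V).FG := by
    unfold Lin
    rw [LinearMap.range_eq_map]
    exact Submodule.FG.map _ Module.Finite.fg_top
  exact h1.pow n

instance fd_pow (n : ℕ) : FiniteDimensional ℝ ((Lin V) ^ n : Submodule ℝ (V → ℝ)) :=
  Module.Finite.iff_fg.2 (fg_pow n)

lemma homog (n : ℕ) : ∀ f ∈ (Lin V) ^ n, ∀ (t : ℝ) (v : V), f (t • v) = t ^ n * f v := by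
  let H : ℕ → Submodule ℝ (V → ℝ) := fun n =>
    { carrier := {f | ∀ (t : ℝ) (v : V), f (t • v) = t ^ n * f v}
      add_mem' := fun {f g} hf hg t v => by
        show f (t • v) + g (t • v) = t ^ n * (f v + g v)
        rw [hf t v, hg t v]; ring
      zero_mem' := fun t v => by simp
      smul_mem' := fun c f hf t v => by
        show c * f (t • v) = t ^ n * (c * f v)
        rw [hf t v]; ring }
  have key : ∀ n, (Lin V) ^ n ≤ H n := by
    intro n
    induction n with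
    | zero =>
      rw [pow_zero, Submodule.one_le]
      intro t v
      simp
    | succ n ih =>
      rw [pow_succ, Submodule.mul_le]
      rintro f hf _ ⟨g, rfl⟩ t v
      show f (t • v) * g (t • v) = t ^ (n + 1) * (f v * g v)
      rw [ih hf t v, map_smul, smul_eq_mul]
      ring
  exact fun f hf => key n hf

lemma comp_mem (g : V →ₗ[ℝ] V) (n : ℕ) : ∀ f ∈ (Lin V) ^ n, (fun v => f (g v)) ∈ (Lin V) ^ n := by
  have key : (Lin V) ^ n ≤ ((Lin V) ^ n).comap (LinearMap.funLeft ℝ ℝ g) := by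
    induction n with
    | zero =>
      rw [pow_zero, Submodule.one_le]
      show (LinearMap.funLeft ℝ ℝ g) 1 ∈ (1 : Submodule ℝ (V → ℝ))
      have : (LinearMap.funLeft ℝ ℝ g) 1 = 1 := rfl
      rw [this]
      exact Submodule.one_le.1 le_rfl
    | succ n ih =>
      rw [pow_succ, Submodule.mul_le]
      rintro f hf _ ⟨h, rfl⟩
      show (LinearMap.funLeft ℝ ℝ g) (f * (h : V → ℝ)) ∈ (Lin V) ^ n * Lin V
      have : (LinearMap.funLeft ℝ ℝ g) (f * (h : V → ℝ)) =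
          (LinearMap.funLeft ℝ ℝ g) f * (fun v => (h.comp g) v) := rfl
      rw [this]
      exact Submodule.mul_mem_mul (ih hf) (mem_Lin _)
  exact fun f hf => key hf

lemma normsq_mem : (fun v : V => ‖v‖ ^ 2) ∈ (Lin V) ^ 2 := by
  set b := stdOrthonormalBasis ℝ V
  have h1 : (fun v : V => ‖v‖ ^ 2) = ∑ i, (fun v => (innerₗ V (b i)) v) * (fun v => (innerₗ V (b i)) v) := by
    funext v
    rw [← b.sum_sq_norm_inner_right v, Finset.sum_apply]
    refine sum_congr rfl fun i _ => ?_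
    show ‖inner ℝ (b i) v‖ ^ 2 = inner ℝ (b i) v * inner ℝ (b i) v
    rw [Real.norm_eq_abs, sq_abs, sq]
  rw [h1, pow_two]
  exact Submodule.sum_mem _ fun i _ => Submodule.mul_mem_mul (mem_Lin _) (mem_Lin _)

lemma one_mem' : (fun _ : V => (1 : ℝ)) ∈ (Lin V) ^ 0 := by
  rw [pow_zero]
  exact Submodule.one_le.1 le_rfl

lemma mul_mem' {m n k : ℕ} (hk : m + n = k) {f g : V → ℝ} (hf : f ∈ (Lin V) ^ m) (hg : g ∈ (Lin V) ^ n) :
    (fun v => f v * g v) ∈ (Lin V) ^ k := by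
  rw [← hk, pow_add]
  exact Submodule.mul_mem_mul hf hg

lemma normpow_mem (j : ℕ) : (fun v : V => ‖v‖ ^ (2 * j)) ∈ (Lin V) ^ (2 * j) := by
  induction j with
  | zero => simpa using one_mem' (V := V)
  | succ j ih =>
    have h1 := mul_mem' (show 2 * j + 2 = 2 * (j + 1) by ring) ih normsq_mem
    have h2 : (fun v : V => ‖v‖ ^ (2 * (j + 1))) = fun v => ‖v‖ ^ (2 * j) * ‖v‖ ^ 2 := by
      funext v
      ring
    rw [h2]
    exact h1

end pol

section good

variable {V : Type} [NormedAddCommGroup V] [InnerProductSpace ℝ V] [FiniteDimensional ℝ V] {X Y : Type}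

/-- on every fibre the function is a polynomial of degree at most `2 D + 1` in `u` -/
def Good (π : X → Y) (u : X → V) (P : X → ℝ) : Prop :=
  ∃ D : ℕ, ∀ y, ∃ E ∈ (Lin V) ^ (2 * D), ∃ O ∈ (Lin V) ^ (2 * D + 1), ∀ x, π x = y → P x = E (u x) + O (u x)

lemma good_raise {π : X → Y} {u : X → V} (hu : ∀ x, ‖u x‖ = 1) {P : X → ℝ} {D : ℕ}
    (h : ∀ y, ∃ E ∈ (Lin V) ^ (2 * D), ∃ O ∈ (Lin V) ^ (2 * D + 1), ∀ x, π x = y → P x = E (u x) + O (u x))
    {D' : ℕ} (hD : D ≤ D') :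
    ∀ y, ∃ E ∈ (Lin V) ^ (2 * D'), ∃ O ∈ (Lin V) ^ (2 * D' + 1), ∀ x, π x = y → P x = E (u x) + O (u x) := by
  intro y
  obtain ⟨E, hE, O, hO, h1⟩ := h y
  obtain ⟨j, rfl⟩ : ∃ j, D' = D + j := ⟨D' - D, by omega⟩
  refine ⟨fun v => E v * ‖v‖ ^ (2 * j), mul_mem' (by ring) hE (normpow_mem j),
    fun v => O v * ‖v‖ ^ (2 * j), mul_mem' (by ring) hO (normpow_mem j), fun x hx => ?_⟩
  rw [h1 x hx]
  simp [hu x]

lemma good_add {π : X → Y} {u : X → V} (hu : ∀ x, ‖u x‖ = 1) {P Q : X → ℝ} (hP : Good π u P) (hQ : Good π u Q) :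
    Good π u (fun x => P x + Q x) := by
  obtain ⟨D, hD⟩ := hP
  obtain ⟨D', hD'⟩ := hQ
  refine ⟨max D D', fun y => ?_⟩
  obtain ⟨E, hE, O, hO, h1⟩ := good_raise hu hD (le_max_left D D') y
  obtain ⟨E', hE', O', hO', h2⟩ := good_raise hu hD' (le_max_right D D') y
  refine ⟨E + E', Submodule.add_mem _ hE hE', O + O', Submodule.add_mem _ hO hO', fun x hx => ?_⟩
  show P x + Q x = (E (u x) + E' (u x)) + (O (u x) + O' (u x))
  rw [h1 x hx, h2 x hx]
  ring

lemma good_mul {π : X → Y} {u : X → V} (hu : ∀ x, ‖u x‖ = 1) {P Q : X → ℝ} (hP : Good π u P) (hQ : Good π u Q) :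
    Good π u (fun x => P x * Q x) := by
  obtain ⟨D, hD⟩ := hP
  obtain ⟨D', hD'⟩ := hQ
  refine ⟨D + D' + 1, fun y => ?_⟩
  obtain ⟨E, hE, O, hO, h1⟩ := hD y
  obtain ⟨E', hE', O', hO', h2⟩ := hD' y
  refine ⟨(fun v => (E v * E' v) * ‖v‖ ^ (2 * 1)) + fun v => O v * O' v, ?_,
    (fun v => (E v * O' v) * ‖v‖ ^ (2 * 1)) + fun v => (O v * E' v) * ‖v‖ ^ (2 * 1), ?_, fun x hx => ?_⟩
  · exact Submodule.add_mem _ (mul_mem' (by ring) (mul_mem' rfl hE hE') (normpow_mem 1))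
      (mul_mem' (by ring) hO hO')
  · exact Submodule.add_mem _ (mul_mem' (by ring) (mul_mem' rfl hE hO') (normpow_mem 1))
      (mul_mem' (by ring) (mul_mem' rfl hO hE') (normpow_mem 1))
  · show P x * Q x = ((E (u x) * E' (u x)) * ‖u x‖ ^ (2 * 1) + O (u x) * O' (u x)) +
      ((E (u x) * O' (u x)) * ‖u x‖ ^ (2 * 1) + (O (u x) * E' (u x)) * ‖u x‖ ^ (2 * 1))
    rw [h1 x hx, h2 x hx]
    simp only [hu x, one_pow, mul_one]
    ring

lemma good_base {π : X → Y} {u : X → V} (g : Y → ℝ) : Good π u (fun x => g (π x)) := by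
  refine ⟨0, fun y => ⟨fun _ => g y, ?_, 0, Submodule.zero_mem _, fun x hx => ?_⟩⟩
  · have h1 := Submodule.smul_mem ((Lin V) ^ (2 * 0)) (g y) (one_mem' (V := V))
    have h2 : (fun _ : V => g y) = g y • (fun _ : V => (1 : ℝ)) := by
      funext v
      simp
    rw [h2]
    exact h1
  · show g (π x) = g y + 0
    rw [hx, add_zero]

lemma good_lin {π : X → Y} {u : X → V} (f : V →ₗ[ℝ] ℝ) : Good π u (fun x => f (u x)) := by
  refine ⟨0, fun y => ⟨0, Submodule.zero_mem _, fun v => f v, ?_, fun x _ => ?_⟩⟩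
  · rw [mul_zero, zero_add, pow_one]
    exact mem_Lin f
  · simp

end good

/-- a sign pattern given by three functions is not arbitrary, if there are many times -/
theorem no_all {Z : Type} (W₁ W₂ W₃ : Submodule ℝ (Z → ℝ)) [FiniteDimensional ℝ W₁] [FiniteDimensional ℝ W₂]
    [FiniteDimensional ℝ W₃] : ∃ d : ℕ, ∀ a b c : Fin d → Z → ℝ, (∀ i, a i ∈ W₁) → (∀ i, b i ∈ W₂) →
      (∀ i, c i ∈ W₃) → ¬ ∀ τ : Fin d → Bool, ∃ z, ∀ i,
        (τ i = true ↔ ((0 < c i z ∧ 0 < a i z) ∨ (¬ 0 < c i z ∧ 0 < b i z))) := by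
  classical
  set K₁ := 2 ^ (Module.finrank ℝ W₁ + 1)
  set K₂ := 2 ^ (Module.finrank ℝ W₂ + 1)
  set K₃ := 2 ^ (Module.finrank ℝ W₃ + 1)
  obtain ⟨d, hd⟩ := poly_lt_exp (K₁ * (K₂ * K₃)) (K₁ + (K₂ + K₃))
  refine ⟨d, fun a b c ha hb hc h => ?_⟩
  choose z hz using h
  let Ψ : (Fin d → Bool) → Finset (Fin d) × Finset (Fin d) × Finset (Fin d) := fun τ =>
    (univ.filter fun i => 0 < a i (z τ), univ.filter fun i => 0 < b i (z τ), univ.filter fun i => 0 < c i (z τ))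
  have hinj : Function.Injective Ψ := by
    intro τ σ h
    simp only [Ψ, Prod.mk.injEq, Finset.ext_iff, mem_filter, mem_univ, true_and] at h
    obtain ⟨h1, h2, h3⟩ := h
    funext i
    have e1 := hz τ i
    have e2 := hz σ i
    rw [h1 i, h2 i, h3 i, ← e2] at e1
    exact Bool.eq_iff_iff.2 e1
  have hmem : ∀ τ, Ψ τ ∈ (pats a) ×ˢ ((pats b) ×ˢ (pats c)) := by
    intro τ
    rw [mem_product, mem_product]
    exact ⟨mem_pats a (z τ), mem_pats b (z τ), mem_pats c (z τ)⟩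
  have hcard : Fintype.card (Fin d → Bool) ≤ ((pats a) ×ˢ ((pats b) ×ˢ (pats c))).card := by
    rw [← card_univ, ← card_image_of_injective univ hinj]
    refine card_le_card fun p hp => ?_
    rw [mem_image] at hp
    obtain ⟨τ, -, rfl⟩ := hp
    exact hmem τ
  rw [card_product, card_product, Fintype.card_fun, Fintype.card_bool, Fintype.card_fin] at hcard
  have h1 : (pats a).card ≤ K₁ * (d + 1) ^ K₁ := card_pats W₁ a ha
  have h2 : (pats b).card ≤ K₂ * (d + 1) ^ K₂ := card_pats W₂ b hb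
  have h3 : (pats c).card ≤ K₃ * (d + 1) ^ K₃ := card_pats W₃ c hc
  have h4 := hcard.trans (Nat.mul_le_mul h1 (Nat.mul_le_mul h2 h3))
  have h5 : K₁ * (d + 1) ^ K₁ * (K₂ * (d + 1) ^ K₂ * (K₃ * (d + 1) ^ K₃)) =
      K₁ * (K₂ * K₃) * (d + 1) ^ (K₁ + (K₂ + K₃)) := by
    rw [pow_add, pow_add]
    ring
  rw [h5] at h4
  exact absurd h4 (not_le.2 hd)

lemma sign_iff {t a b : ℝ} (ht : 0 < t) :
    (0 < t * a + b → ((0 < a ^ 2 * t ^ 2 - b ^ 2 ∧ 0 < a) ∨ (¬ 0 < a ^ 2 * t ^ 2 - b ^ 2 ∧ 0 < b))) ∧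
    (t * a + b < 0 → ¬ ((0 < a ^ 2 * t ^ 2 - b ^ 2 ∧ 0 < a) ∨ (¬ 0 < a ^ 2 * t ^ 2 - b ^ 2 ∧ 0 < b))) := by
  have e : a ^ 2 * t ^ 2 - b ^ 2 = (t * a + b) * (t * a - b) := by ring
  rw [e]
  refine ⟨fun h => ?_, fun h => ?_⟩
  · by_cases h1 : 0 < (t * a + b) * (t * a - b)
    · have h2 : 0 < t * a - b := (mul_pos_iff_of_pos_left h).1 h1
      refine Or.inl ⟨h1, ?_⟩
      have : 0 < t * a := by linarith
      exact (mul_pos_iff_of_pos_left ht).1 this
    · refine Or.inr ⟨h1, ?_⟩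
      have h2 : t * a - b ≤ 0 := by
        by_contra hcon
        push Not at hcon
        exact h1 (mul_pos h hcon)
      linarith
  · rintro (⟨h1, h2⟩ | ⟨h1, h2⟩)
    · have h3 : t * a - b < 0 := by
        by_contra hcon
        push Not at hcon
        nlinarith [mul_nonneg_of_nonpos_of_nonpos h.le (neg_nonpos.2 hcon)]
      have : 0 < t * a := mul_pos ht h2
      linarith
    · have h3 : 0 ≤ t * a - b := by
        by_contra hcon
        push Not at hcon
        exact h1 (mul_pos_of_neg_of_neg h hcon)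
      linarith

section main

variable {V : Type} [NormedAddCommGroup V] [InnerProductSpace ℝ V] [FiniteDimensional ℝ V] {X Y : Type}

/-- the fibre maps of all orders are linear on rays -/
lemma iter_lin {S : Y → Y} {T : X → X} {π : X → Y} (hπT : ∀ x, π (T x) = S (π x)) {Φ : X → V}
    {M : Y → V →ₗ[ℝ] V} (hM : ∀ x, ∃ r : ℝ, 0 < r ∧ Φ (T x) = r • M (π x) (Φ x)) (m : ℕ) (y : Y) :
    ∃ L : V →ₗ[ℝ] V, ∀ x, π x = y → π (T^[m] x) = S^[m] y ∧ ∃ r : ℝ, 0 < r ∧ Φ (T^[m] x) = r • L (Φ x) := by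
  induction m with
  | zero => exact ⟨LinearMap.id, fun x hx => ⟨hx, 1, one_pos, by simp⟩⟩
  | succ m ih =>
    obtain ⟨L, hL⟩ := ih
    refine ⟨(M (S^[m] y)).comp L, fun x hx => ?_⟩
    obtain ⟨h1, r, hr, h2⟩ := hL x hx
    rw [Function.iterate_succ_apply', Function.iterate_succ_apply', hπT, h1]
    refine ⟨rfl, ?_⟩
    obtain ⟨s, hs, h3⟩ := hM (T^[m] x)
    refine ⟨s * r, mul_pos hs hr, ?_⟩
    rw [h3, h1, h2, map_smul, smul_smul, LinearMap.comp_apply]

/-- a continuous function separating disjoint closed sets, polynomial on the fibres -/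
theorem sep [TopologicalSpace X] [CompactSpace X] [TopologicalSpace Y] [CompactSpace Y] [T2Space Y]
    {π : X → Y} (hπ : Continuous π) {u : X → V} (huc : Continuous u) (hu : ∀ x, ‖u x‖ = 1)
    (hsep : ∀ x x', π x = π x' → u x = u x' → x = x') {A B : Set X} (hA : IsClosed A) (hB : IsClosed B)
    (hAB : Disjoint A B) : ∃ P : X → ℝ, Good π u P ∧ (∀ x ∈ A, 0 < P x) ∧ ∀ x ∈ B, P x < 0 := by
  have : T2Space X := T2Space.of_injective_continuous (f := fun x => (π x, u x))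
    (fun x x' h => hsep x x' (Prod.mk.inj h).1 (Prod.mk.inj h).2) (hπ.prodMk huc)
  let 𝒜 : Subalgebra ℝ C(X, ℝ) :=
    { carrier := {P | Good π u P}
      mul_mem' := fun {P Q} hP hQ => good_mul hu hP hQ
      add_mem' := fun {P Q} hP hQ => good_add hu hP hQ
      algebraMap_mem' := fun r => good_base (fun _ => r) }
  have h𝒜 : 𝒜.SeparatesPoints := by
    intro x x' hx
    by_cases hy : π x = π x'
    · have h1 : u x ≠ u x' := fun h => hx (hsep x x' hy h)
      have h2 : ∃ f : V →ₗ[ℝ] ℝ, f (u x) ≠ f (u x') := by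
        by_contra hcon
        push Not at hcon
        refine h1 ?_
        have h3 := hcon (innerₗ V (u x - u x'))
        have h4 : inner ℝ (u x - u x') (u x) = inner ℝ (u x - u x') (u x') := h3
        have h5 : inner ℝ (u x - u x') (u x - u x') = (0 : ℝ) := by
          rw [inner_sub_right, h4, sub_self]
        exact sub_eq_zero.1 (inner_self_eq_zero.1 h5)
      obtain ⟨f, hf⟩ := h2
      refine ⟨fun x => f (u x), ⟨⟨fun x => f (u x), ?_⟩, ?_, rfl⟩, hf⟩
      · exact (LinearMap.continuous_of_finiteDimensional f).comp huc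
      · exact good_lin f
    · obtain ⟨g, hg0, hg1, -⟩ := exists_continuous_zero_one_of_isClosed (isClosed_singleton (x := π x))
        (isClosed_singleton (x := π x')) (by simpa using hy)
      refine ⟨fun x => g (π x), ⟨⟨fun x => g (π x), g.continuous.comp hπ⟩, good_base g, rfl⟩, ?_⟩
      have e0 := hg0 (Set.mem_singleton (π x))
      have e1 := hg1 (Set.mem_singleton (π x'))
      show g (π x) ≠ g (π x')
      rw [e0, e1]
      simp
  obtain ⟨c, hc0, hc1, -⟩ := exists_continuous_zero_one_of_isClosed hB hA hAB.symm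
  set c' : C(X, ℝ) := (2 : ℝ) • c - 1 with hc'
  have hmem := ContinuousMap.subalgebra_topologicalClosure_eq_top_of_separatesPoints 𝒜 h𝒜
  have h1 : c' ∈ 𝒜.topologicalClosure := by
    rw [hmem]
    trivial
  have h2 : c' ∈ closure (𝒜 : Set C(X, ℝ)) := h1
  rw [Metric.mem_closure_iff] at h2
  obtain ⟨P, hP, hd⟩ := h2 1 one_pos
  refine ⟨P, hP, fun x hx => ?_, fun x hx => ?_⟩
  · have h3 := (ContinuousMap.dist_apply_le_dist x).trans_lt hd
    have h4 : c' x = 1 := by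
      have := hc1 hx
      simp only [hc', ContinuousMap.sub_apply, ContinuousMap.smul_apply, ContinuousMap.one_apply, this,
        Pi.one_apply, smul_eq_mul]
      norm_num
    rw [h4, Real.dist_eq, abs_lt] at h3
    linarith
  · have h3 := (ContinuousMap.dist_apply_le_dist x).trans_lt hd
    have h4 : c' x = -1 := by
      have := hc0 hx
      simp only [hc', ContinuousMap.sub_apply, ContinuousMap.smul_apply, ContinuousMap.one_apply, this,
        Pi.zero_apply, smul_eq_mul]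
      norm_num
    rw [h4, Real.dist_eq, abs_lt] at h3
    linarith

/-- **Extensions with linear fibre maps on rays are null relative to their base.** -/
theorem null_lin [TopologicalSpace X] [CompactSpace X] [TopologicalSpace Y] [CompactSpace Y] [T2Space Y]
    {S : Y → Y} {T : X → X} {π : X → Y} (hπ : Continuous π) (hπT : ∀ x, π (T x) = S (π x)) {Φ : X → V}
    (hΦ : Continuous Φ) (hΦ0 : ∀ x, Φ x ≠ 0) {M : Y → V →ₗ[ℝ] V}
    (hM : ∀ x, ∃ r : ℝ, 0 < r ∧ Φ (T x) = r • M (π x) (Φ x))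
    (hsep : ∀ x x', π x = π x' → (∃ r : ℝ, 0 < r ∧ Φ x' = r • Φ x) → x = x') {A B : Set X} (hA : IsClosed A)
    (hB : IsClosed B) (hAB : Disjoint A B) : ∃ d : ℕ, ∀ (y : Y) (m : Fin d → ℕ), ∃ τ : Fin d → Bool,
      ∀ x, π x = y → ∃ i, T^[m i] x ∉ (if τ i then A else B) := by
  set u : X → V := fun x => ‖Φ x‖⁻¹ • Φ x with hu
  have hn : ∀ x, 0 < ‖Φ x‖ := fun x => norm_pos_iff.2 (hΦ0 x)
  have huc : Continuous u := (hΦ.norm.inv₀ fun x => (hn x).ne').smul hΦ
  have hu1 : ∀ x, ‖u x‖ = 1 := fun x => by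
    rw [hu]
    simp only [norm_smul, norm_inv, norm_norm]
    exact inv_mul_cancel₀ (hn x).ne'
  have husep : ∀ x x', π x = π x' → u x = u x' → x = x' := by
    intro x x' h1 h2
    refine hsep x x' h1 ⟨‖Φ x'‖ * ‖Φ x‖⁻¹, mul_pos (hn x') (inv_pos.2 (hn x)), ?_⟩
    have h3 : ‖Φ x‖⁻¹ • Φ x = ‖Φ x'‖⁻¹ • Φ x' := h2
    rw [mul_smul, h3, smul_smul, mul_inv_cancel₀ (hn x').ne', one_smul]
  obtain ⟨P, ⟨D, hD⟩, hPA, hPB⟩ := sep hπ huc hu1 husep hA hB hAB
  obtain ⟨d, hd⟩ := no_all ((Lin V) ^ (2 * D)) ((Lin V) ^ (2 * D + 1)) ((Lin V) ^ (4 * D + 2))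
  refine ⟨d, fun y m => ?_⟩
  by_contra hcon
  push Not at hcon
  choose L hL using fun i => iter_lin hπT hM (m i) y
  choose E hE O hO hP using fun i => hD (S^[m i] y)
  have hc : ∀ i, (fun v => E i (L i v) ^ 2 * ‖L i v‖ ^ 2 - O i (L i v) ^ 2) ∈ (Lin V) ^ (4 * D + 2) := by
    intro i
    have e1 : (fun v => (E i v * E i v) * ‖v‖ ^ 2) ∈ (Lin V) ^ (4 * D + 2) :=
      mul_mem' (by ring) (mul_mem' rfl (hE i) (hE i)) normsq_mem
    have e2 : (fun v => O i v * O i v) ∈ (Lin V) ^ (4 * D + 2) := mul_mem' (by ring) (hO i) (hO i)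
    have e3 := comp_mem (L i) _ _ (Submodule.sub_mem _ e1 e2)
    have e4 : (fun v => E i (L i v) ^ 2 * ‖L i v‖ ^ 2 - O i (L i v) ^ 2) =
        fun v => ((fun v => (E i v * E i v) * ‖v‖ ^ 2) - fun v => O i v * O i v) (L i v) := by
      funext v
      rw [Pi.sub_apply]
      ring
    rw [e4]
    exact e3
  refine hd (fun i v => E i (L i v)) (fun i v => O i (L i v))
    (fun i v => E i (L i v) ^ 2 * ‖L i v‖ ^ 2 - O i (L i v) ^ 2) (fun i => comp_mem (L i) _ _ (hE i))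
    (fun i => comp_mem (L i) _ _ (hO i)) hc fun τ => ?_
  obtain ⟨x, hx, hx2⟩ := hcon τ
  refine ⟨Φ x, fun i => ?_⟩
  obtain ⟨h1, r, hr, h2⟩ := hL i x hx
  have hLn : 0 < ‖L i (Φ x)‖ := by
    rw [norm_pos_iff]
    intro h3
    refine hΦ0 (T^[m i] x) ?_
    rw [h2, h3, smul_zero]
  have h3 : u (T^[m i] x) = ‖L i (Φ x)‖⁻¹ • L i (Φ x) := by
    rw [hu]
    simp only
    rw [h2, norm_smul, Real.norm_of_nonneg hr.le, smul_smul, mul_inv, mul_comm r⁻¹, mul_assoc,
      inv_mul_cancel₀ hr.ne', mul_one]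
  have h4 := hP i (T^[m i] x) h1
  rw [h3, homog _ _ (hE i), homog _ _ (hO i)] at h4
  set t := ‖L i (Φ x)‖ with ht
  have h5 : t ^ (2 * D + 1) * P (T^[m i] x) = t * E i (L i (Φ x)) + O i (L i (Φ x)) := by
    rw [h4, mul_add, ← mul_assoc, ← mul_assoc, ← mul_pow, mul_inv_cancel₀ hLn.ne', one_pow, one_mul, pow_succ,
      mul_assoc (t ^ (2 * D)), mul_comm t (t⁻¹ ^ (2 * D)), ← mul_assoc (t ^ (2 * D)), ← mul_pow,
      mul_inv_cancel₀ hLn.ne', one_pow, one_mul]
  obtain ⟨s1, s2⟩ := sign_iff (a := E i (L i (Φ x))) (b := O i (L i (Φ x))) hLn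
  have htp : 0 < t ^ (2 * D + 1) := pow_pos hLn _
  have h6 := hx2 i
  constructor
  · intro h7
    rw [h7, if_pos rfl] at h6
    refine s1 ?_
    rw [← h5]
    exact mul_pos htp (hPA _ h6)
  · intro h7
    by_contra h8
    rw [if_neg h8] at h6
    refine s2 ?_ h7
    rw [← h5]
    exact mul_neg_of_pos_of_neg htp (hPB _ h6)

end main

end Pool.Agent.K3h58.LC
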