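import Pool.Agent.K3h58.LC.Conv

/-! # The definition of convergence actions by sequences -/

set_option autoImplicit false

namespace Pool.Agent.K3h58.LC

open Finset Filter Topology

/-- Convergence actions in the usual sense: each sequence in `G` which leaves all compact sets has a subsequence which
tends to a point `a`, uniformly outside of each neighbourhood of a point `r`. -/
def SeqConvergence (G Z : Type) [TopologicalSpace G] [SMul G Z] [MetricSpace Z] : Prop :=
  ∀ g : ℕ → G, Tendsto g atTop (cocompact G) → ∃ (a r : Z) (φ : ℕ → ℕ), StrictMono φ ∧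
    ∀ ε : ℝ, 0 < ε → ∀ᶠ n in atTop, ∀ z : Z, ε ≤ dist z r → dist (g (φ n) • z) a < ε

theorem conv_of_seq {G Z : Type} [TopologicalSpace G] [WeaklyLocallyCompactSpace G] [SigmaCompactSpace G]
    [SMul G Z] [MetricSpace Z] (h : SeqConvergence G Z) : Convergence G Z := by
  intro ε hε
  by_contra hcon
  push Not at hcon
  let K : CompactExhaustion G := default
  have h1 : ∀ n, ∃ g, g ∉ K n ∧ ∀ a r : Z, ∃ z, ε ≤ dist z r ∧ ε ≤ dist (g • z) a := fun n =>
    hcon (K n) (K.isCompact n)
  choose g hg hbad using h1
  have hlim : Tendsto g atTop (cocompact G) := by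
    rw [Filter.hasBasis_cocompact.tendsto_right_iff]
    intro C hC
    obtain ⟨n, hn⟩ := K.exists_superset_of_isCompact hC
    filter_upwards [eventually_ge_atTop n] with m hm hmC
    exact hg m (K.subset hm (hn hmC))
  obtain ⟨a, r, φ, hφ, hev⟩ := h g hlim
  obtain ⟨n, hn⟩ := (hev ε hε).exists
  obtain ⟨z, hz1, hz2⟩ := hbad (φ n) a r
  exact absurd (hn z hz1) (not_lt.2 hz2)

end Pool.Agent.K3h58.LC
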