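import Pool.Agent.K3h58.LC.Dual

/-! # Extensions whose fibres embed in a projective space over a non-archimedean field, with linear fibre maps -/

set_option autoImplicit false
set_option linter.unusedSectionVars false

namespace Pool.Agent.K3h58.LC

open Finset Filter Topology

section argmax

variable {F : Type} [NormedField F] [IsUltrametricDist F]

/-- **The number of patterns of maxima.** For each index `i` let `κ z i` be the least place of the maximum of the
absolute values `|f i a z|`. The products of the functions along the patterns `κ z` are linearly independent. -/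
theorem card_argmax {Z I : Type} [Fintype I] {r : ℕ} (f : I → Fin r → Z → F) (κ : Z → I → Fin r)
    (hκ : ∀ z i a, ‖f i a z‖ ≤ ‖f i (κ z i) z‖)
    (hκ' : ∀ z i a, ‖f i a z‖ = ‖f i (κ z i) z‖ → κ z i ≤ a)
    (h0 : ∀ z i, f i (κ z i) z ≠ 0)
    (W : Submodule F (Z → F)) [FiniteDimensional F W] (hW : ∀ p : I → Fin r, (fun z => ∏ i, f i (p i) z) ∈ W)
    (K : Finset (I → Fin r)) (hK : ∀ p ∈ K, ∃ z, κ z = p) :
    K.card ≤ Module.finrank F W := by
  classical
  let h : K → W := fun p => ⟨fun z => ∏ i, f i (p.1 i) z, hW p.1⟩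
  have hli : LinearIndependent F h := by
    rw [Fintype.linearIndependent_iff]
    intro c hc
    by_contra hcon
    push Not at hcon
    obtain ⟨p₀, hp₀⟩ := hcon
    obtain ⟨p₁, -, hp₁⟩ := exists_max_image (univ : Finset K) (fun p => ‖c p‖) ⟨p₀, mem_univ _⟩
    have hpos : 0 < ‖c p₁‖ := (norm_pos_iff.2 hp₀).trans_le (hp₁ p₀ (mem_univ _))
    obtain ⟨p, hp, hmax⟩ := exists_max_image ((univ : Finset K).filter fun p => ‖c p‖ = ‖c p₁‖)
      (fun p => ∑ i, (p.1 i : ℕ)) ⟨p₁, by simp⟩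
    rw [mem_filter] at hp
    obtain ⟨z, hz⟩ := hK p.1 p.2
    have hne : ∀ i, 0 < ‖f i (p.1 i) z‖ := fun i => by
      rw [← hz]
      exact norm_pos_iff.2 (h0 z i)
    have hle : ∀ q : K, ∀ i, ‖f i (q.1 i) z‖ ≤ ‖f i (p.1 i) z‖ := fun q i => by
      rw [← hz]
      exact hκ z i _
    have hprod : 0 < ∏ i, ‖f i (p.1 i) z‖ := prod_pos fun i _ => hne i
    have hlt : ∀ q : K, q ≠ p → ‖c q * ∏ i, f i (q.1 i) z‖ < ‖c p * ∏ i, f i (p.1 i) z‖ := by
      intro q hq
      rw [norm_mul, norm_mul, norm_prod, norm_prod]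
      have h1 : ∏ i, ‖f i (q.1 i) z‖ ≤ ∏ i, ‖f i (p.1 i) z‖ :=
        prod_le_prod (fun i _ => norm_nonneg _) fun i _ => hle q i
      have h2 : ‖c q‖ ≤ ‖c p‖ := by
        rw [hp.2]
        exact hp₁ q (mem_univ _)
      rcases h2.lt_or_eq with h3 | h3
      · exact (mul_le_mul_of_nonneg_left h1 (norm_nonneg _)).trans_lt (mul_lt_mul_of_pos_right h3 hprod)
      · rw [h3]
        refine mul_lt_mul_of_pos_left ?_ (by rw [hp.2]; exact hpos)
        by_contra hnot
        have h4 : ∀ i, ‖f i (q.1 i) z‖ = ‖f i (p.1 i) z‖ := by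
          intro i
          by_contra hne'
          have h5 : ‖f i (q.1 i) z‖ < ‖f i (p.1 i) z‖ := lt_of_le_of_ne (hle q i) hne'
          refine hnot ?_
          by_cases hall : ∃ j, ‖f j (q.1 j) z‖ = 0
          · obtain ⟨j, hj⟩ := hall
            rw [prod_eq_zero (mem_univ j) hj]
            exact hprod
          · push Not at hall
            exact prod_lt_prod (fun j _ => lt_of_le_of_ne (norm_nonneg _) (hall j).symm)
              (fun j _ => hle q j) ⟨i, mem_univ _, h5⟩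
        have h5 : ∀ i, p.1 i ≤ q.1 i := by
          intro i
          have h6 := hκ' z i (q.1 i)
          rw [hz] at h6
          exact h6 (h4 i)
        have h6 := hmax q (by rw [mem_filter]; exact ⟨mem_univ _, h3.trans hp.2⟩)
        have h7 : ∑ i, (p.1 i : ℕ) ≤ ∑ i, (q.1 i : ℕ) := sum_le_sum fun i _ => h5 i
        have h8 : ∑ i, (p.1 i : ℕ) = ∑ i, (q.1 i : ℕ) := le_antisymm h7 h6
        have h9 : ∀ i ∈ (univ : Finset I), (p.1 i : ℕ) = (q.1 i : ℕ) :=
          (sum_eq_sum_iff_of_le (s := univ) (f := fun i => (p.1 i : ℕ)) (g := fun i => (q.1 i : ℕ))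
            fun i _ => Fin.le_def.1 (h5 i)).1 h8
        refine hq (Subtype.ext (funext fun i => ?_))
        exact (Fin.ext (h9 i (mem_univ _))).symm
    have hsum : ∑ q : K, c q * ∏ i, f i (q.1 i) z = 0 := by
      have h1 := congrArg (fun w : W => (w : Z → F) z) hc
      simpa [h, Finset.sum_apply] using h1
    rw [← add_sum_erase univ _ (mem_univ p)] at hsum
    have hb : ‖∑ q ∈ univ.erase p, c q * ∏ i, f i (q.1 i) z‖ < ‖c p * ∏ i, f i (p.1 i) z‖ := by
      rcases (univ.erase p).eq_empty_or_nonempty with he | he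
      · rw [he, sum_empty, norm_zero, norm_mul, norm_prod]
        exact mul_pos (by rw [hp.2]; exact hpos) hprod
      · obtain ⟨q, hq, hq2⟩ := IsUltrametricDist.exists_norm_finsetSum_le_of_nonempty he
          (fun q : K => c q * ∏ i, f i (q.1 i) z)
        exact hq2.trans_lt (hlt q (ne_of_mem_erase hq))
    rw [add_eq_zero_iff_eq_neg] at hsum
    rw [hsum, norm_neg] at hb
    exact lt_irrefl _ hb
  have h2 := hli.fintype_card_le_finrank
  rwa [Fintype.card_coe] at h2

end argmax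

section mon

variable {F : Type} [Field F] {k : ℕ} {Z : Type}

/-- the functions which are polynomials of degree at most `n` in each coordinate of `ι` -/
def Mon (ι : Z → Fin k → F) (n : ℕ) : Submodule F (Z → F) :=
  Submodule.span F (Set.range fun e : Fin k → Fin (n + 1) => fun z => ∏ j, ι z j ^ (e j : ℕ))

instance (ι : Z → Fin k → F) (n : ℕ) : FiniteDimensional F (Mon ι n) := by
  unfold Mon
  exact FiniteDimensional.span_of_finite F (Set.finite_range _)

lemma finrank_mon (ι : Z → Fin k → F) (n : ℕ) : Module.finrank F (Mon ι n) ≤ (n + 1) ^ k := by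
  have h1 := finrank_range_le_card (R := F) fun e : Fin k → Fin (n + 1) => fun z => ∏ j, ι z j ^ (e j : ℕ)
  rw [Fintype.card_fun, Fintype.card_fin, Fintype.card_fin] at h1
  exact h1

lemma one_mem_mon (ι : Z → Fin k → F) : (fun _ => (1 : F)) ∈ Mon ι 0 := by
  refine Submodule.subset_span ⟨fun _ => 0, ?_⟩
  funext z
  simp

lemma coord_mul_mem (ι : Z → Fin k → F) (n : ℕ) (j : Fin k) : ∀ h ∈ Mon ι n,
    (fun z => ι z j * h z) ∈ Mon ι (n + 1) := by
  classical
  intro h hh
  unfold Mon at hh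
  induction hh using Submodule.span_induction with
  | mem x hx =>
    obtain ⟨e, rfl⟩ := hx
    refine Submodule.subset_span ⟨fun i => if i = j then ⟨(e i : ℕ) + 1, by omega⟩ else (e i).castSucc, ?_⟩
    funext z
    show ∏ i, ι z i ^ ((if i = j then (⟨(e i : ℕ) + 1, by omega⟩ : Fin (n + 1 + 1)) else (e i).castSucc : Fin (n + 1 + 1)) : ℕ) =
      ι z j * ∏ i, ι z i ^ (e i : ℕ)
    rw [← mul_prod_erase univ _ (mem_univ j), ← mul_prod_erase univ (fun i => ι z i ^ (e i : ℕ)) (mem_univ j),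
      if_pos rfl, ← mul_assoc, pow_succ']
    congr 1
    refine prod_congr rfl fun i hi => ?_
    rw [if_neg (ne_of_mem_erase hi)]
    rfl
  | zero =>
    have := Submodule.zero_mem (Mon ι (n + 1))
    convert this using 1
    funext z
    simp
  | add x y hx hy h1 h2 =>
    have := Submodule.add_mem _ h1 h2
    convert this using 1
    funext z
    simp [mul_add]
  | smul a x hx h1 =>
    have := Submodule.smul_mem _ a h1
    convert this using 1
    funext z
    simp only [Pi.smul_apply, smul_eq_mul]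
    ring

lemma lin_mul_mem (ι : Z → Fin k → F) (n : ℕ) (q : (Fin k → F) →ₗ[F] F) {h : Z → F} (hh : h ∈ Mon ι n) :
    (fun z => q (ι z) * h z) ∈ Mon ι (n + 1) := by
  classical
  have h1 : (fun z => q (ι z) * h z) = ∑ j, (q fun i => if j = i then 1 else 0) • fun z => ι z j * h z := by
    funext z
    rw [Finset.sum_apply]
    have h2 := q.pi_apply_eq_sum_univ (ι z)
    rw [h2, sum_mul]
    refine sum_congr rfl fun j _ => ?_
    simp only [Pi.smul_apply, smul_eq_mul]
    ring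
  rw [h1]
  exact Submodule.sum_mem _ fun j _ => Submodule.smul_mem _ _ (coord_mul_mem ι n j h hh)

lemma prod_mem {I : Type} (ι : Z → Fin k → F) (q : I → (Fin k → F) →ₗ[F] F) (s : Finset I) :
    (fun z => ∏ i ∈ s, q i (ι z)) ∈ Mon ι s.card := by
  classical
  induction s using Finset.induction_on with
  | empty => simpa using one_mem_mon ι
  | insert i s hi ih =>
    rw [card_insert_of_notMem hi]
    have := lin_mul_mem ι s.card (q i) ih
    convert this using 1
    funext z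
    rw [prod_insert hi]

end mon

section amax

variable {F : Type} [NormedField F]

/-- the least place of the maximum of the absolute values -/
lemma exists_amax {r : ℕ} (w : Fin (r + 1) → F) : ∃ a, (∀ b, ‖w b‖ ≤ ‖w a‖) ∧ ∀ b, ‖w b‖ = ‖w a‖ → a ≤ b := by
  classical
  obtain ⟨a₀, -, ha₀⟩ := exists_max_image (univ : Finset (Fin (r + 1))) (fun a => ‖w a‖) ⟨0, mem_univ _⟩
  obtain ⟨a, ha, ha2⟩ := exists_min_image ((univ : Finset (Fin (r + 1))).filter fun a => ‖w a‖ = ‖w a₀‖) id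
    ⟨a₀, by simp⟩
  rw [mem_filter] at ha
  refine ⟨a, fun b => ?_, fun b hb => ?_⟩
  · rw [ha.2]
    exact ha₀ b (mem_univ _)
  · exact ha2 b (by rw [mem_filter]; exact ⟨mem_univ _, hb.trans ha.2⟩)

noncomputable def amax {r : ℕ} (w : Fin (r + 1) → F) : Fin (r + 1) := (exists_amax w).choose

lemma amax_le {r : ℕ} (w : Fin (r + 1) → F) (b : Fin (r + 1)) : ‖w b‖ ≤ ‖w (amax w)‖ := (exists_amax w).choose_spec.1 b

lemma amax_min {r : ℕ} (w : Fin (r + 1) → F) (b : Fin (r + 1)) (h : ‖w b‖ = ‖w (amax w)‖) : amax w ≤ b :=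
  (exists_amax w).choose_spec.2 b h

/-- the coordinates and the functional `q` -/
def fam {k : ℕ} (q : (Fin k → F) →ₗ[F] F) (v : Fin k → F) (a : Fin (k + 1)) : F := Fin.lastCases (q v) (fun j => v j) a

@[simp] lemma fam_last {k : ℕ} (q : (Fin k → F) →ₗ[F] F) (v : Fin k → F) : fam q v (Fin.last k) = q v := by
  simp [fam]

@[simp] lemma fam_castSucc {k : ℕ} (q : (Fin k → F) →ₗ[F] F) (v : Fin k → F) (j : Fin k) :
    fam q v j.castSucc = v j := by
  simp [fam]

/-- the functional is larger than the coordinates -/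
def Big {k : ℕ} (q : (Fin k → F) →ₗ[F] F) (v : Fin k → F) : Prop := ∀ j, ‖v j‖ < ‖q v‖

lemma amax_iff {k : ℕ} (q : (Fin k → F) →ₗ[F] F) (v : Fin k → F) : amax (fam q v) = Fin.last k ↔ Big q v := by
  constructor
  · intro h j
    have h1 := amax_le (fam q v) j.castSucc
    rw [h, fam_castSucc, fam_last] at h1
    refine lt_of_le_of_ne h1 fun h2 => ?_
    have h3 := amax_min (fam q v) j.castSucc (by rw [h, fam_castSucc, fam_last, h2])
    rw [h] at h3
    exact absurd h3 (not_le.2 (Fin.castSucc_lt_last j))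
  · intro h
    by_contra hne
    obtain ⟨j, hj⟩ := Fin.exists_castSucc_eq.2 hne
    have h1 := amax_le (fam q v) (Fin.last k)
    rw [← hj, fam_castSucc, fam_last] at h1
    exact absurd (h j) (not_lt.2 h1)

lemma big_smul {k : ℕ} (q : (Fin k → F) →ₗ[F] F) (v : Fin k → F) {r : F} (hr : r ≠ 0) : Big q (r • v) ↔ Big q v := by
  unfold Big
  refine forall_congr' fun j => ?_
  rw [map_smul, smul_eq_mul, Pi.smul_apply, smul_eq_mul, norm_mul, norm_mul,
    mul_lt_mul_iff_right₀ (norm_pos_iff.2 hr)]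

end amax

section main

variable {F : Type} [NontriviallyNormedField F] {k : ℕ} {X Y : Type}

lemma exists_q {u w : Fin k → F} (hu : u ≠ 0) (h : ∀ r : F, w ≠ r • u) :
    ∃ q : (Fin k → F) →ₗ[F] F, (∃ j, ‖q u‖ < ‖u j‖) ∧ Big q w := by
  have h1 : w ∉ Submodule.span F {u} := by
    rw [Submodule.mem_span_singleton]
    rintro ⟨a, ha⟩
    exact h a ha.symm
  obtain ⟨f, hf, hker⟩ := Submodule.exists_le_ker_of_notMem h1
  have hfu : f u = 0 := hker (Submodule.mem_span_singleton_self u)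
  obtain ⟨c, hc⟩ := NormedField.exists_lt_norm F (‖w‖ / ‖f w‖)
  have hfw : 0 < ‖f w‖ := norm_pos_iff.2 hf
  rw [div_lt_iff₀ hfw] at hc
  refine ⟨c • f, ?_, fun j => ?_⟩
  · obtain ⟨j, hj⟩ := Function.ne_iff.1 hu
    refine ⟨j, ?_⟩
    rw [LinearMap.smul_apply, hfu, smul_zero, norm_zero]
    exact norm_pos_iff.2 hj
  · rw [LinearMap.smul_apply, smul_eq_mul, norm_mul]
    exact (norm_le_pi_norm w j).trans_lt hc

/-- the fibre maps of all orders are linear up to scalars -/
lemma iter_lin_proj {V : Type} [AddCommGroup V] [Module F V] {S : Y → Y} {T : X → X} {π : X → Y}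
    (hπT : ∀ x, π (T x) = S (π x)) {Φ : X → V}
    {M : Y → V →ₗ[F] V} (hM : ∀ x, ∃ r : F, r ≠ 0 ∧ Φ (T x) = r • M (π x) (Φ x)) (m : ℕ) (y : Y) :
    ∃ L : V →ₗ[F] V, ∀ x, π x = y → π (T^[m] x) = S^[m] y ∧ ∃ r : F, r ≠ 0 ∧ Φ (T^[m] x) = r • L (Φ x) := by
  induction m with
  | zero => exact ⟨LinearMap.id, fun x hx => ⟨hx, 1, one_ne_zero, by simp⟩⟩
  | succ m ih =>
    obtain ⟨L, hL⟩ := ih
    refine ⟨(M (S^[m] y)).comp L, fun x hx => ?_⟩
    obtain ⟨h1, r, hr, h2⟩ := hL x hx
    rw [Function.iterate_succ_apply', Function.iterate_succ_apply', hπT, h1]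
    refine ⟨rfl, ?_⟩
    obtain ⟨s, hs, h3⟩ := hM (T^[m] x)
    refine ⟨s * r, mul_ne_zero hs hr, ?_⟩
    rw [h3, h1, h2, map_smul, smul_smul, LinearMap.comp_apply]

theorem sep_ultra [TopologicalSpace X] [CompactSpace X] [TopologicalSpace Y] [T2Space Y] {π : X → Y}
    (hπ : Continuous π) {Φ : X → Fin k → F} (hΦ : Continuous Φ) (hΦ0 : ∀ x, Φ x ≠ 0)
    (hsep : ∀ x x', π x = π x' → (∃ r : F, r ≠ 0 ∧ Φ x' = r • Φ x) → x = x') {A B : Set X} (hA : IsClosed A)
    (hB : IsClosed B) (hAB : Disjoint A B) : ∃ (L : ℕ) (q : Fin L → (Fin k → F) →ₗ[F] F),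
      ∀ x ∈ A, ∀ x' ∈ B, π x = π x' → ∃ l, Big (q l) (Φ x') ∧ ¬ Big (q l) (Φ x) := by
  have hcomp : IsCompact {p : X × X | p.1 ∈ A ∧ p.2 ∈ B ∧ π p.1 = π p.2} := by
    refine IsClosed.isCompact ?_
    exact (hA.preimage continuous_fst).inter ((hB.preimage continuous_snd).inter
      (isClosed_eq (hπ.comp continuous_fst) (hπ.comp continuous_snd)))
  let U : ((Fin k → F) →ₗ[F] F) → Set (X × X) := fun q =>
    {p | (∃ j, ‖q (Φ p.1)‖ < ‖Φ p.1 j‖) ∧ ∀ j, ‖Φ p.2 j‖ < ‖q (Φ p.2)‖}
  have hU : ∀ q, IsOpen (U q) := by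
    intro q
    have hq : Continuous q := LinearMap.continuous_on_pi q
    have e : U q = (⋃ j, {p : X × X | ‖q (Φ p.1)‖ < ‖Φ p.1 j‖}) ∩ ⋂ j, {p | ‖Φ p.2 j‖ < ‖q (Φ p.2)‖} := by
      ext p
      simp [U]
    rw [e]
    refine (isOpen_iUnion fun j => ?_).inter (isOpen_iInter_of_finite fun j => ?_)
    · exact isOpen_lt (hq.comp (hΦ.comp continuous_fst)).norm
        ((continuous_apply j).comp (hΦ.comp continuous_fst)).norm
    · exact isOpen_lt ((continuous_apply j).comp (hΦ.comp continuous_snd)).norm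
        (hq.comp (hΦ.comp continuous_snd)).norm
  obtain ⟨t, ht⟩ := hcomp.elim_finite_subcover U hU (by
    rintro ⟨x, x'⟩ ⟨h1, h2, h3⟩
    have h1 : x ∈ A := h1
    have h2 : x' ∈ B := h2
    have h3 : π x = π x' := h3
    rw [Set.mem_iUnion]
    refine exists_q (hΦ0 x) fun r hr => ?_
    have hr0 : r ≠ 0 := by
      rintro rfl
      rw [zero_smul] at hr
      exact hΦ0 x' hr
    have h4 := hsep x x' h3 ⟨r, hr0, hr⟩
    rw [← h4] at h2
    exact Set.disjoint_left.1 hAB h1 h2)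
  refine ⟨t.card, fun l => (t.equivFin.symm l : (Fin k → F) →ₗ[F] F), fun x hx x' hx' hxx' => ?_⟩
  have h1 := ht (show (x, x') ∈ {p : X × X | p.1 ∈ A ∧ p.2 ∈ B ∧ π p.1 = π p.2} from ⟨hx, hx', hxx'⟩)
  rw [Set.mem_iUnion₂] at h1
  obtain ⟨q, hq, ⟨j, hj⟩, h3⟩ := h1
  have he : ((t.equivFin.symm (t.equivFin ⟨q, hq⟩) : t) : (Fin k → F) →ₗ[F] F) = q := by
    rw [Equiv.symm_apply_apply]
  refine ⟨t.equivFin ⟨q, hq⟩, ?_, ?_⟩
  · show Big ((t.equivFin.symm (t.equivFin ⟨q, hq⟩) : t) : (Fin k → F) →ₗ[F] F) (Φ x')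
    rw [he]
    exact h3
  · show ¬ Big ((t.equivFin.symm (t.equivFin ⟨q, hq⟩) : t) : (Fin k → F) →ₗ[F] F) (Φ x)
    rw [he]
    intro h4
    exact absurd (h4 j) (not_lt.2 hj.le)

/-- **Extensions with linear fibre maps on projective spaces over non-archimedean fields are null relative to their
base.** -/
theorem null_ultra [IsUltrametricDist F] [TopologicalSpace X] [CompactSpace X] [TopologicalSpace Y] [T2Space Y]
    {S : Y → Y} {T : X → X} {π : X → Y} (hπ : Continuous π) (hπT : ∀ x, π (T x) = S (π x)) {Φ : X → Fin k → F}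
    (hΦ : Continuous Φ) (hΦ0 : ∀ x, Φ x ≠ 0) {M : Y → (Fin k → F) →ₗ[F] (Fin k → F)}
    (hM : ∀ x, ∃ r : F, r ≠ 0 ∧ Φ (T x) = r • M (π x) (Φ x))
    (hsep : ∀ x x', π x = π x' → (∃ r : F, r ≠ 0 ∧ Φ x' = r • Φ x) → x = x') {A B : Set X} (hA : IsClosed A)
    (hB : IsClosed B) (hAB : Disjoint A B) : ∃ d : ℕ, ∀ (y : Y) (m : Fin d → ℕ), ∃ τ : Fin d → Bool,
      ∀ x, π x = y → ∃ i, T^[m i] x ∉ (if τ i then A else B) := by
  classical
  obtain ⟨L, q, hq⟩ := sep_ultra hπ hΦ hΦ0 hsep hA hB hAB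
  obtain ⟨d, hd⟩ := poly_lt_exp ((L + 1) ^ k) k
  refine ⟨d, fun y m => ?_⟩
  by_contra hcon
  push Not at hcon
  choose G hG using fun i => iter_lin_proj hπT hM (m i) y
  choose x hx hx2 using hcon
  have hGne : ∀ τ i, G i (Φ (x τ)) ≠ 0 := by
    intro τ i h
    obtain ⟨-, r, hr, h1⟩ := hG i (x τ) (hx τ)
    rw [h, smul_zero] at h1
    exact hΦ0 _ h1
  let Z : Type := {v : Fin k → F // ∀ i : Fin d, G i v ≠ 0}
  let f : Fin d × Fin L → Fin (k + 1) → Z → F := fun p a z => fam (q p.2) (G p.1 z.1) a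
  let κ : Z → Fin d × Fin L → Fin (k + 1) := fun z p => amax (fam (q p.2) (G p.1 z.1))
  have hW : ∀ p : Fin d × Fin L → Fin (k + 1), (fun z => ∏ i, f i (p i) z) ∈ Mon (fun z : Z => z.1) (d * L) := by
    intro p
    have h1 := prod_mem (fun z : Z => z.1) (fun i : Fin d × Fin L =>
      (if h : p i = Fin.last k then (q i.2).comp (G i.1) else
        (LinearMap.proj (Fin.castPred (p i) h) : (Fin k → F) →ₗ[F] F).comp (G i.1))) univ
    rw [card_univ, Fintype.card_prod, Fintype.card_fin, Fintype.card_fin] at h1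
    convert h1 using 1
    funext z
    refine prod_congr rfl fun i _ => ?_
    show fam (q i.2) (G i.1 z.1) (p i) = _
    by_cases h : p i = Fin.last k
    · rw [dif_pos h, h, fam_last]
      rfl
    · rw [dif_neg h]
      obtain ⟨j, hj⟩ := Fin.exists_castSucc_eq.2 h
      simp only [← hj, fam_castSucc, Fin.castPred_castSucc]
      rfl
  let ζ : (Fin d → Bool) → Z := fun τ => ⟨Φ (x τ), fun i => hGne τ i⟩
  have hbit : ∀ τ i l, (κ (ζ τ) (i, l) = Fin.last k ↔ Big (q l) (Φ (T^[m i] (x τ)))) := by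
    intro τ i l
    obtain ⟨-, r, hr, h1⟩ := hG i (x τ) (hx τ)
    rw [h1, big_smul _ _ hr]
    exact amax_iff (q l) (G i (Φ (x τ)))
  have hinj : Function.Injective fun τ => κ (ζ τ) := by
    intro τ σ h
    have key : ∀ τ σ, κ (ζ τ) = κ (ζ σ) → ∀ i, τ i = true → σ i = true := by
      intro τ σ h i hi
      by_contra hj
      have hj' : σ i = false := by simpa using hj
      have e1 := hx2 τ i
      have e2 := hx2 σ i
      rw [hi, if_pos rfl] at e1
      rw [hj', if_neg (by simp)] at e2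
      obtain ⟨l, h2, h3⟩ := hq _ e1 _ e2 (by rw [(hG i _ (hx τ)).1, (hG i _ (hx σ)).1])
      rw [← hbit, ← h, hbit] at h2
      exact h3 h2
    funext i
    exact Bool.eq_iff_iff.2 ⟨key τ σ h i, key σ τ h.symm i⟩
  have hcard := card_argmax f κ (fun z i a => amax_le (fam (q i.2) (G i.1 z.1)) a)
    (fun z i a h => amax_min (fam (q i.2) (G i.1 z.1)) a h) (fun z i h => by
      obtain ⟨j, hj⟩ := Function.ne_iff.1 (z.2 i.1)
      refine hj ?_
      have h1 := amax_le (fam (q i.2) (G i.1 z.1)) j.castSucc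
      have h2 : fam (q i.2) (G i.1 z.1) (amax (fam (q i.2) (G i.1 z.1))) = 0 := h
      rw [h2, norm_zero, fam_castSucc] at h1
      exact norm_le_zero_iff.1 h1) (Mon (fun z : Z => z.1) (d * L)) hW (univ.image fun τ => κ (ζ τ)) (by
      intro p hp
      rw [mem_image] at hp
      obtain ⟨τ, -, rfl⟩ := hp
      exact ⟨ζ τ, rfl⟩)
  rw [card_image_of_injective univ hinj, card_univ, Fintype.card_fun, Fintype.card_bool, Fintype.card_fin] at hcard
  have hle := hcard.trans (finrank_mon (fun z : Z => z.1) (d * L))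
  have h1 : (d * L + 1) ^ k ≤ (L + 1) ^ k * (d + 1) ^ k := by
    rw [← mul_pow]
    refine Nat.pow_le_pow_left ?_ k
    nlinarith [Nat.zero_le d, Nat.zero_le L]
  exact absurd hd (not_lt.2 (hle.trans h1))

end main

end Pool.Agent.K3h58.LC
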