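import Pool.Agent.K3h58.LC.Ultra

/-! # The projective space over a locally compact non-archimedean field as a space of normalised vectors -/

set_option autoImplicit false
set_option linter.unusedSectionVars false

namespace Pool.Agent.K3h58.LC

open Finset Filter Topology

section basic

variable {F : Type} [NormedField F] {k : ℕ}

lemma amax_eq {w : Fin (k + 1) → F} {a : Fin (k + 1)} (h1 : ∀ b, ‖w b‖ ≤ ‖w a‖)
    (h2 : ∀ b, ‖w b‖ = ‖w a‖ → a ≤ b) : amax w = a := by
  have h3 : ‖w (amax w)‖ = ‖w a‖ := le_antisymm (h1 _) (amax_le w a)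
  exact le_antisymm (amax_min w a h3.symm) (h2 _ h3)

lemma apply_amax_ne {w : Fin (k + 1) → F} (hw : w ≠ 0) : w (amax w) ≠ 0 := by
  obtain ⟨j, hj⟩ := Function.ne_iff.1 hw
  intro h
  have h1 := amax_le w j
  rw [h, norm_zero] at h1
  exact hj (norm_le_zero_iff.1 h1)

lemma amax_smul (w : Fin (k + 1) → F) {r : F} (hr : r ≠ 0) : amax (r • w) = amax w := by
  have h0 := norm_pos_iff.2 hr
  refine amax_eq (fun b => ?_) fun b hb => ?_
  · rw [Pi.smul_apply, Pi.smul_apply, smul_eq_mul, smul_eq_mul, norm_mul, norm_mul]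
    exact mul_le_mul_of_nonneg_left (amax_le w b) h0.le
  · rw [Pi.smul_apply, Pi.smul_apply, smul_eq_mul, smul_eq_mul, norm_mul, norm_mul] at hb
    exact amax_min w b (mul_left_cancel₀ h0.ne' hb)

/-- the vector divided by its first coordinate of maximal absolute value -/
noncomputable def nf (w : Fin (k + 1) → F) : Fin (k + 1) → F := (w (amax w))⁻¹ • w

lemma nf_smul (w : Fin (k + 1) → F) {r : F} (hr : r ≠ 0) : nf (r • w) = nf w := by
  unfold nf
  rw [amax_smul w hr, Pi.smul_apply, smul_eq_mul, smul_smul, mul_inv, mul_comm r⁻¹, mul_assoc,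
    inv_mul_cancel₀ hr, mul_one]

/-- the normalised vectors -/
def NF (F : Type) [NormedField F] (k : ℕ) : Set (Fin (k + 1) → F) := {w | w (amax w) = 1}

lemma nf_mem {w : Fin (k + 1) → F} (hw : w ≠ 0) : nf w ∈ NF F k := by
  have h := apply_amax_ne hw
  show nf w (amax (nf w)) = 1
  unfold nf
  rw [amax_smul w (inv_ne_zero h), Pi.smul_apply, smul_eq_mul, inv_mul_cancel₀ h]

lemma nf_of_mem {w : Fin (k + 1) → F} (hw : w ∈ NF F k) : nf w = w := by
  unfold nf
  rw [show w (amax w) = 1 from hw, inv_one, one_smul]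

lemma ne_of_mem {w : Fin (k + 1) → F} (hw : w ∈ NF F k) : w ≠ 0 := by
  rintro rfl
  exact zero_ne_one (hw : (0 : F) = 1)

lemma norm_of_mem {w : Fin (k + 1) → F} (hw : w ∈ NF F k) : ‖w‖ ≤ 1 := by
  rw [pi_norm_le_iff_of_nonneg zero_le_one]
  intro i
  have h1 := amax_le w i
  rwa [show w (amax w) = 1 from hw, norm_one] at h1

variable [IsUltrametricDist F]

lemma amax_near {v w : Fin (k + 1) → F} (h : ‖v - w‖ < ‖w (amax w)‖) : amax v = amax w := by
  have h1 : ∀ b, ‖v b - w b‖ < ‖w (amax w)‖ := fun b => (norm_le_pi_norm (v - w) b).trans_lt h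
  have h2 : ∀ b, ‖w b‖ = ‖w (amax w)‖ → ‖v b‖ = ‖w (amax w)‖ := by
    intro b hb
    have h3 : ‖v b - w b‖ < ‖w b‖ := by
      rw [hb]
      exact h1 b
    have h4 : v b = (v b - w b) + w b := by ring
    rw [h4, IsUltrametricDist.norm_add_eq_max_of_norm_ne_norm h3.ne, max_eq_right h3.le, hb]
  have h3 : ∀ b, ‖w b‖ ≠ ‖w (amax w)‖ → ‖v b‖ < ‖w (amax w)‖ := by
    intro b hb
    have h4 : v b = (v b - w b) + w b := by ring
    rw [h4]
    exact (IsUltrametricDist.norm_add_le_max _ _).trans_lt (max_lt (h1 b) (lt_of_le_of_ne (amax_le w b) hb))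
  have h4 := h2 _ rfl
  refine amax_eq (fun b => ?_) fun b hb => ?_
  · rw [h4]
    by_cases hb : ‖w b‖ = ‖w (amax w)‖
    · exact (h2 b hb).le
    · exact (h3 b hb).le
  · by_cases hb' : ‖w b‖ = ‖w (amax w)‖
    · exact amax_min w b hb'
    · have h5 := h3 b hb'
      rw [hb, h4] at h5
      exact absurd h5 (lt_irrefl _)

lemma eventually_amax {w : Fin (k + 1) → F} (hw : w ≠ 0) : ∀ᶠ v in 𝓝 w, amax v = amax w := by
  have h0 : 0 < ‖w (amax w)‖ := norm_pos_iff.2 (apply_amax_ne hw)
  filter_upwards [Metric.ball_mem_nhds w h0] with v hv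
  rw [Metric.mem_ball, dist_eq_norm] at hv
  exact amax_near hv

lemma continuousAt_nf {w : Fin (k + 1) → F} (hw : w ≠ 0) : ContinuousAt nf w := by
  have h1 : (fun v : Fin (k + 1) → F => (v (amax w))⁻¹ • v) =ᶠ[𝓝 w] nf := by
    filter_upwards [eventually_amax hw] with v hv
    unfold nf
    rw [hv]
  refine ContinuousAt.congr ?_ h1
  exact ((continuous_apply (amax w)).continuousAt.inv₀ (apply_amax_ne hw)).smul continuousAt_id

lemma isClosed_NF : IsClosed (NF F k) := by
  rw [← isOpen_compl_iff, isOpen_iff_mem_nhds]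
  intro w hw
  by_cases h0 : w = 0
  · subst h0
    filter_upwards [Metric.ball_mem_nhds (0 : Fin (k + 1) → F) one_pos] with v hv hvm
    rw [Metric.mem_ball, dist_zero_right] at hv
    have h1 := (norm_le_pi_norm v (amax v)).trans_lt hv
    rw [show v (amax v) = 1 from hvm, norm_one] at h1
    exact lt_irrefl _ h1
  · have h1 : w (amax w) ≠ 1 := hw
    have h2 : ∀ᶠ v : Fin (k + 1) → F in 𝓝 w, v (amax w) ≠ 1 :=
      (continuous_apply (amax w)).continuousAt.eventually_ne h1
    filter_upwards [h2, eventually_amax h0] with v hv1 hv2 hvm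
    have h3 : v (amax v) = 1 := hvm
    rw [hv2] at h3
    exact hv1 h3

instance compact_NF [ProperSpace F] : CompactSpace (NF F k) := by
  refine isCompact_iff_compactSpace.1 ?_
  refine Metric.isCompact_of_isClosed_isBounded isClosed_NF ?_
  refine (Metric.isBounded_closedBall (x := (0 : Fin (k + 1) → F)) (r := 1)).subset fun w hw => ?_
  rw [mem_closedBall_zero_iff]
  exact norm_of_mem hw

end basic

section sys

variable {F : Type} [NontriviallyNormedField F] [IsUltrametricDist F] {k : ℕ} {Y : Type}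

/-- the action of a linear cocycle on the normalised vectors -/
noncomputable def proj (S : Y → Y) (M : Y → (Fin (k + 1) → F) →ₗ[F] (Fin (k + 1) → F))
    (hM : ∀ y v, M y v = 0 → v = 0) (x : Y × NF F k) : Y × NF F k :=
  (S x.1, ⟨nf (M x.1 x.2), nf_mem fun h => ne_of_mem x.2.2 (hM _ _ h)⟩)

lemma proj_cont [TopologicalSpace Y] {S : Y → Y} (hS : Continuous S)
    {M : Y → (Fin (k + 1) → F) →ₗ[F] (Fin (k + 1) → F)} (hM : ∀ y v, M y v = 0 → v = 0)
    (hc : Continuous (fun p : Y × (Fin (k + 1) → F) => M p.1 p.2)) : Continuous (proj S M hM) := by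
  refine (hS.comp continuous_fst).prodMk ?_
  have h1 : Continuous fun x : Y × NF F k => M x.1 x.2 :=
    hc.comp (continuous_fst.prodMk (continuous_subtype_val.comp continuous_snd))
  refine Continuous.subtype_mk ?_ _
  rw [continuous_iff_continuousAt]
  intro x
  exact ContinuousAt.comp (g := nf) (continuousAt_nf fun h => ne_of_mem x.2.2 (hM _ _ h)) h1.continuousAt

lemma proj_iter {S : Y → Y} {M : Y → (Fin (k + 1) → F) →ₗ[F] (Fin (k + 1) → F)}
    (hM : ∀ y v, M y v = 0 → v = 0) {y : Y} {v : ℕ → Fin (k + 1) → F} (h0 : v 0 ≠ 0)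
    (hv : ∀ n, v (n + 1) = M (S^[n] y) (v n)) :
    (∀ n, v n ≠ 0) ∧ ∀ n, (proj S M hM)^[n] (y, ⟨nf (v 0), nf_mem h0⟩) = (S^[n] y, ⟨nf (v n), by
      refine nf_mem ?_
      induction n with
      | zero => exact h0
      | succ n ih =>
        rw [hv]
        exact fun h => ih (hM _ _ h)⟩) := by
  have hvn : ∀ n, v n ≠ 0 := by
    intro n
    induction n with
    | zero => exact h0
    | succ n ih =>
      rw [hv]
      exact fun h => ih (hM _ _ h)
  refine ⟨hvn, fun n => ?_⟩
  induction n with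
  | zero => rfl
  | succ n ih =>
    rw [Function.iterate_succ_apply', ih, Prod.ext_iff]
    refine ⟨(Function.iterate_succ_apply' S n y).symm, Subtype.ext ?_⟩
    show nf (M (S^[n] y) (nf (v n))) = nf (v (n + 1))
    rw [hv n]
    unfold nf
    rw [map_smul]
    exact nf_smul (M (S^[n] y) (v n)) (inv_ne_zero (apply_amax_ne (hvn n)))

lemma proj_null [ProperSpace F] [TopologicalSpace Y] [CompactSpace Y] [T2Space Y] {S : Y → Y}
    {M : Y → (Fin (k + 1) → F) →ₗ[F] (Fin (k + 1) → F)} (hM : ∀ y v, M y v = 0 → v = 0)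
    {A B : Set (Y × NF F k)} (hA : IsClosed A) (hB : IsClosed B) (hAB : Disjoint A B) :
    ∃ d : ℕ, ∀ (y : Y) (m : Fin d → ℕ), ∃ τ : Fin d → Bool,
      ∀ x : Y × NF F k, x.1 = y → ∃ i, (proj S M hM)^[m i] x ∉ (if τ i then A else B) :=
  null_ultra (X := Y × NF F k) (S := S) (T := proj S M hM) (π := Prod.fst) continuous_fst (fun x => rfl)
    (Φ := fun x => (x.2 : Fin (k + 1) → F)) (continuous_subtype_val.comp continuous_snd)
    (fun x => ne_of_mem x.2.2) (M := M)
    (fun x => ⟨_, inv_ne_zero (apply_amax_ne fun h => ne_of_mem x.2.2 (hM _ _ h)), rfl⟩) (by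
      rintro ⟨y, v⟩ ⟨y', v'⟩ h1 ⟨r, hr, h2⟩
      have h3 : y = y' := h1
      have h4 : (v' : Fin (k + 1) → F) = r • (v : Fin (k + 1) → F) := h2
      have h5 := congrArg nf h4
      rw [nf_smul _ hr, nf_of_mem v.2, nf_of_mem v'.2] at h5
      rw [h3, Subtype.ext h5]) hA hB hAB

end sys

end Pool.Agent.K3h58.LC
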